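import Pool.Agent.Helper20_BC.Jen

set_option autoImplicit false

/-! The oscillation of a martingale. -/

open Finset Filter Topology

noncomputable section

namespace Pool.Agent.BC.H20

theorem av1_mono (m : ℕ) (g g' : ℤ → ℝ) (h : ∀ k, g k ≤ g' k) (j : ℤ) :
    av1 m g j ≤ av1 m g' j := by
  unfold av1
  rw [smul_eq_mul, smul_eq_mul]
  exact mul_le_mul_of_nonneg_left (Finset.sum_le_sum (fun r _ => h _)) (by positivity)

theorem av1_const (m : ℕ) (b : ℝ) (j : ℤ) : av1 m (fun _ => b) j = b := by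
  unfold av1
  rw [Finset.sum_const, Finset.card_univ, Fintype.card_fin, nsmul_eq_mul, smul_eq_mul]
  push_cast
  rw [inv_mul_cancel_left₀ (by positivity)]

theorem av1_nonneg (m : ℕ) (g : ℤ → ℝ) (h : ∀ k, 0 ≤ g k) (j : ℤ) : 0 ≤ av1 m g j := by
  have := av1_mono m (fun _ => 0) g h j
  rwa [av1_const] at this

/-- the mean square distance at the depth `m` -/
def FF {X : Type} [NormedAddCommGroup X] [NormedSpace ℝ X] (x : ℕ → ℤ → X) (n : ℕ) (j : ℤ) (u : X)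
    (m : ℕ) : ℝ := av1 m (fun k => ‖x (n + m) k - u‖ ^ 2) j

variable {X : Type} [NormedAddCommGroup X] [NormedSpace ℝ X]

theorem FF_nonneg (x : ℕ → ℤ → X) (n : ℕ) (j : ℤ) (u : X) (m : ℕ) : 0 ≤ FF x n j u m :=
  av1_nonneg m _ (fun _ => by positivity) j

theorem FF_le (x : ℕ → ℤ → X) (hx : IsT x) (n : ℕ) (j : ℤ) (u : X) (m : ℕ) :
    FF x n j u m ≤ (1 + ‖u‖) ^ 2 := by
  unfold FF
  have h := av1_mono m (fun k => ‖x (n + m) k - u‖ ^ 2) (fun _ => (1 + ‖u‖) ^ 2) (by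
    intro k
    apply pow_le_pow_left₀ (norm_nonneg _)
    exact (norm_sub_le _ _).trans (add_le_add (hx.1 _ _) le_rfl)) j
  rwa [av1_const] at h

theorem FF_bdd (x : ℕ → ℤ → X) (hx : IsT x) (n : ℕ) (j : ℤ) (u : X) :
    BddAbove (Set.range (FF x n j u)) := by
  refine ⟨(1 + ‖u‖) ^ 2, ?_⟩
  rintro _ ⟨m, rfl⟩
  exact FF_le x hx n j u m

theorem FF_mono (x : ℕ → ℤ → X) (hx : IsT x) (n : ℕ) (j : ℤ) (u : X) : Monotone (FF x n j u) := by
  apply monotone_nat_of_le_succ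
  intro m
  unfold FF
  rw [(tow ℝ m 1).2]
  apply av1_mono
  intro k
  exact (jen X x hx).2.2.1 (n + m) 1 k u

theorem hh_eq (x : ℕ → ℤ → X) (n : ℕ) (j : ℤ) : hh x n j = ⨅ u : X, ⨆ m : ℕ, FF x n j u m := rfl

theorem sup_nonneg (x : ℕ → ℤ → X) (n : ℕ) (j : ℤ) (u : X) : 0 ≤ ⨆ m : ℕ, FF x n j u m :=
  Real.iSup_nonneg (fun m => FF_nonneg x n j u m)

theorem hh_le (x : ℕ → ℤ → X) (n : ℕ) (j : ℤ) (u : X) : hh x n j ≤ ⨆ m : ℕ, FF x n j u m := by
  rw [hh_eq]
  apply ciInf_le _ u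
  refine ⟨0, ?_⟩
  rintro _ ⟨u, rfl⟩
  exact sup_nonneg x n j u

theorem FF_avg (x : ℕ → ℤ → X) (n : ℕ) (j : ℤ) (u : X) (m q : ℕ) :
    av1 m (fun k => FF x (n + m) k u q) j = FF x n j u (m + q) := by
  unfold FF
  rw [(tow ℝ m q).2]
  simp only [add_assoc]

theorem sup_avg (x : ℕ → ℤ → X) (hx : IsT x) (n : ℕ) (j : ℤ) (u : X) (m : ℕ) :
    av1 m (fun k => ⨆ q : ℕ, FF x (n + m) k u q) j ≤ ⨆ q : ℕ, FF x n j u q := by
  have h1 : Tendsto (fun q => av1 m (fun k => FF x (n + m) k u q) j) atTop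
      (𝓝 (av1 m (fun k => ⨆ q : ℕ, FF x (n + m) k u q) j)) := by
    unfold av1
    apply Tendsto.const_smul
    apply tendsto_finsetSum
    intro r _
    exact tendsto_atTop_ciSup (FF_mono x hx _ _ u) (FF_bdd x hx _ _ u)
  apply le_of_tendsto' h1
  intro q
  rw [FF_avg]
  exact le_ciSup (FF_bdd x hx n j u) (m + q)

theorem hhb : HhbStmt := by
  intro X _ _ x hx
  refine ⟨?_, ?_, ?_⟩
  · intro n j
    constructor
    · rw [hh_eq]
      exact Real.iInf_nonneg (fun u => sup_nonneg x n j u)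
    · refine (hh_le x n j 0).trans ?_
      apply ciSup_le
      intro m
      have := FF_le x hx n j 0 m
      rw [norm_zero] at this
      linarith
  · intro n m j
    rw [hh_eq x n j]
    apply le_ciInf
    intro u
    refine (av1_mono m _ _ (fun k => hh_le x (n + m) k u) j).trans ?_
    exact sup_avg x hx n j u m
  · intro n j u ε hε
    have h1 : hh x n j - ε < ⨆ m : ℕ, FF x n j u m := by
      have := hh_le x n j u
      linarith
    obtain ⟨m, hm⟩ := exists_lt_of_lt_ciSup h1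
    exact ⟨m, hm.le⟩

end Pool.Agent.BC.H20
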