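import Pool.Agent.Helper20_BC.Tow

set_option autoImplicit false

/-! The martingale property and Jensen's inequality. -/

open Finset

noncomputable section

namespace Pool.Agent.BC.H20

theorem av1_zero {V : Type} [AddCommGroup V] [Module ℝ V] (g : ℤ → V) (j : ℤ) :
    av1 0 g j = g j := by
  unfold av1
  simp

theorem av1_one {V : Type} [AddCommGroup V] [Module ℝ V] (g : ℤ → V) (j : ℤ) :
    av1 1 g j = (2 : ℝ)⁻¹ • (g (2 * j) + g (2 * j + 1)) := by
  unfold av1
  have e : ((2 : ℝ) ^ 1) = 2 := pow_one _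
  rw [e]
  congr 1
  refine (Fin.sum_univ_two (fun r : Fin 2 => g (2 ^ 1 * j + ((r : ℕ) : ℤ)))).trans ?_
  simp

theorem av1_mart {X : Type} [NormedAddCommGroup X] [NormedSpace ℝ X] (x : ℕ → ℤ → X) (hx : IsT x)
    (n m : ℕ) : ∀ j, av1 m (x (n + m)) j = x n j := by
  induction m with
  | zero => intro j; exact av1_zero _ j
  | succ m ih =>
    intro j
    rw [(tow X m 1).2]
    have h1 : (fun d => av1 1 (x (n + (m + 1))) d) = x (n + m) := by
      funext d
      rw [av1_one, hx.2 (n + m) d]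
      rfl
    rw [h1]
    exact ih j

theorem av1_sub_const {V : Type} [AddCommGroup V] [Module ℝ V] (m : ℕ) (g : ℤ → V) (r : V) (j : ℤ) :
    av1 m (fun k => g k - r) j = av1 m g j - r := by
  unfold av1
  rw [Finset.sum_sub_distrib, smul_sub, Finset.sum_const, Finset.card_univ, Fintype.card_fin]
  congr 1
  rw [← Nat.cast_smul_eq_nsmul ℝ, smul_smul]
  push_cast
  rw [inv_mul_cancel₀ (by positivity), one_smul]

theorem av_sub_const {V : Type} [AddCommGroup V] [Module ℝ V] {t : ℕ} (m : ℕ)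
    (G : (Fin t → ℤ) → V) (r : V) (c : Fin t → ℤ) :
    av m (fun d => G d - r) c = av m G c - r := by
  unfold av
  rw [Finset.sum_sub_distrib, smul_sub, Finset.sum_const, Finset.card_univ, Fintype.card_fun,
    Fintype.card_fin, Fintype.card_fin]
  congr 1
  rw [← Nat.cast_smul_eq_nsmul ℝ, smul_smul]
  push_cast
  rw [inv_mul_cancel₀ (by positivity), one_smul]

theorem norm_av1_le {V : Type} [NormedAddCommGroup V] [NormedSpace ℝ V] (m : ℕ) (g : ℤ → V)
    (j : ℤ) : ‖av1 m g j‖ ≤ av1 m (fun k => ‖g k‖) j := by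
  unfold av1
  rw [norm_smul, Real.norm_of_nonneg (by positivity), smul_eq_mul]
  exact mul_le_mul_of_nonneg_left (norm_sum_le _ _) (by positivity)

theorem norm_av_le {V : Type} [NormedAddCommGroup V] [NormedSpace ℝ V] {t : ℕ} (m : ℕ)
    (G : (Fin t → ℤ) → V) (c : Fin t → ℤ) : ‖av m G c‖ ≤ av m (fun d => ‖G d‖) c := by
  unfold av
  rw [norm_smul, Real.norm_of_nonneg (by positivity), smul_eq_mul]
  exact mul_le_mul_of_nonneg_left (norm_sum_le _ _) (by positivity)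

theorem sq_avg {ι : Type} (s : Finset ι) (f : ι → ℝ) (N : ℝ) (hN : 0 < N) (hc : (s.card : ℝ) = N) :
    (N⁻¹ * ∑ i ∈ s, f i) ^ 2 ≤ N⁻¹ * ∑ i ∈ s, f i ^ 2 := by
  have h1 := sq_sum_le_card_mul_sum_sq (s := s) (f := f)
  rw [hc] at h1
  calc (N⁻¹ * ∑ i ∈ s, f i) ^ 2 = (N⁻¹) ^ 2 * (∑ i ∈ s, f i) ^ 2 := by ring
    _ ≤ (N⁻¹) ^ 2 * (N * ∑ i ∈ s, f i ^ 2) := mul_le_mul_of_nonneg_left h1 (by positivity)
    _ = N⁻¹ * ∑ i ∈ s, f i ^ 2 := by
      field_simp

theorem sq_av1_le (m : ℕ) (g : ℤ → ℝ) (j : ℤ) : (av1 m g j) ^ 2 ≤ av1 m (fun k => g k ^ 2) j := by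
  unfold av1
  rw [smul_eq_mul, smul_eq_mul]
  apply sq_avg _ _ _ (by positivity)
  rw [Finset.card_univ, Fintype.card_fin]
  push_cast
  rfl

theorem sq_av_le {t : ℕ} (m : ℕ) (G : (Fin t → ℤ) → ℝ) (c : Fin t → ℤ) :
    (av m G c) ^ 2 ≤ av m (fun d => G d ^ 2) c := by
  unfold av
  rw [smul_eq_mul, smul_eq_mul]
  apply sq_avg _ _ _ (by positivity)
  rw [Finset.card_univ, Fintype.card_fun, Fintype.card_fin, Fintype.card_fin]
  push_cast
  rfl

/-- one coordinate -/
theorem av_coord {V : Type} [AddCommGroup V] [Module ℝ V] (t : ℕ) (m : ℕ) (i : Fin t) (g : ℤ → V)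
    (c : Fin t → ℤ) : av m (fun d => g (d i)) c = av1 m g (c i) := by
  unfold av av1 dt
  have ht : 1 ≤ t := by
    have := i.2
    omega
  rw [← Equiv.sum_comp (Equiv.funSplitAt i (Fin (2 ^ m))).symm, Fintype.sum_prod_type]
  have h1 : ∀ y : Fin (2 ^ m), ∑ f : {j // j ≠ i} → Fin (2 ^ m),
      g (2 ^ m * c i + (((Equiv.funSplitAt i (Fin (2 ^ m))).symm (y, f) i : Fin (2 ^ m)) : ℕ)) =
      ((2 : ℝ) ^ m) ^ (t - 1) • g (2 ^ m * c i + ((y : Fin (2 ^ m)) : ℕ)) := by
    intro y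
    have h2 : ∀ f : {j // j ≠ i} → Fin (2 ^ m),
        (Equiv.funSplitAt i (Fin (2 ^ m))).symm (y, f) i = y := by
      intro f
      simp [Equiv.funSplitAt]
    rw [Finset.sum_congr rfl (fun f _ => by rw [h2 f]), Finset.sum_const, Finset.card_univ,
      Fintype.card_fun, Fintype.card_fin, Fintype.card_subtype_compl, Fintype.card_fin,
      Fintype.card_subtype_eq, ← Nat.cast_smul_eq_nsmul ℝ]
    push_cast
    rfl
  rw [Finset.sum_congr rfl (fun y _ => h1 y), ← Finset.smul_sum, smul_smul]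
  congr 1
  have h3 : ((2 : ℝ) ^ m) ^ t = (2 : ℝ) ^ m * ((2 : ℝ) ^ m) ^ (t - 1) := by
    rw [← pow_succ']
    congr 1
    omega
  rw [h3, mul_inv, mul_assoc, inv_mul_cancel₀ (by positivity), mul_one]

theorem av_sum {V : Type} [AddCommGroup V] [Module ℝ V] {t : ℕ} {ι : Type} (s : Finset ι) (m : ℕ)
    (G : ι → (Fin t → ℤ) → V) (c : Fin t → ℤ) :
    av m (fun d => ∑ i ∈ s, G i d) c = ∑ i ∈ s, av m (G i) c := by
  unfold av
  rw [Finset.sum_comm, Finset.smul_sum]

theorem av_smul {V : Type} [AddCommGroup V] [Module ℝ V] {t : ℕ} (m : ℕ) (a : ℝ)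
    (G : (Fin t → ℤ) → V) (c : Fin t → ℤ) :
    av m (fun d => a • G d) c = a • av m G c := by
  unfold av
  rw [← Finset.smul_sum, smul_comm]

theorem av_J {X : Type} [NormedAddCommGroup X] [NormedSpace ℝ X] (x : ℕ → ℤ → X) (hx : IsT x)
    (t n m : ℕ) (c : Fin t → ℤ) (a : Fin t → ℝ) :
    av m (fun d => J x (n + m) d a) c = J x n c a := by
  unfold J
  rw [av_sum]
  apply Finset.sum_congr rfl
  intro i _
  rw [av_smul, av_coord t m i (fun k => x (n + m) k) c]
  rw [av1_mart x hx n m (c i)]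

theorem jen : JenStmt := by
  intro X _ _ x hx
  have h2 : ∀ n m j (r : X), ‖x n j - r‖ ≤ av1 m (fun k => ‖x (n + m) k - r‖) j := by
    intro n m j r
    have h := norm_av1_le m (fun k => x (n + m) k - r) j
    rw [av1_sub_const, av1_mart x hx] at h
    exact h
  have h4 : ∀ (t n m : ℕ) (c : Fin t → ℤ) (a : Fin t → ℝ) (r : X),
      ‖J x n c a - r‖ ≤ av m (fun d => ‖J x (n + m) d a - r‖) c := by
    intro t n m c a r
    have h := norm_av_le m (fun d => J x (n + m) d a - r) c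
    rw [av_sub_const, av_J x hx] at h
    exact h
  refine ⟨fun n m j => av1_mart x hx n m j, h2, ?_, ?_⟩
  · intro n m j r
    refine (pow_le_pow_left₀ (norm_nonneg _) (h2 n m j r) 2).trans ?_
    exact sq_av1_le m (fun k => ‖x (n + m) k - r‖) j
  · intro t n m c a
    refine ⟨av_J x hx t n m c a, h4 t n m c a, ?_⟩
    intro r
    refine (pow_le_pow_left₀ (norm_nonneg _) (h4 t n m c a r) 2).trans ?_
    exact sq_av_le m (fun d => ‖J x (n + m) d a - r‖) c

end Pool.Agent.BC.H20
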