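import Pool.Agent.BC.Stmts

set_option autoImplicit false

/-! Tower property of the averages. -/

open Finset

noncomputable section

namespace Pool.Agent.BC.H20

/-- joining the digits -/
def jn (m m' : ℕ) : Fin (2 ^ m) × Fin (2 ^ m') ≃ Fin (2 ^ (m + m')) :=
  finProdFinEquiv.trans (finCongr (pow_add 2 m m').symm)

theorem jn_val (m m' : ℕ) (p : Fin (2 ^ m) × Fin (2 ^ m')) :
    ((jn m m' p : Fin (2 ^ (m + m'))) : ℕ) = (p.2 : ℕ) + 2 ^ m' * (p.1 : ℕ) := rfl

/-- joining the digits in every coordinate -/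
def jn' (t m m' : ℕ) : (Fin t → Fin (2 ^ m)) × (Fin t → Fin (2 ^ m')) ≃ (Fin t → Fin (2 ^ (m + m'))) :=
  (Equiv.arrowProdEquivProdArrow (Fin t) (fun _ => Fin (2 ^ m)) (fun _ => Fin (2 ^ m'))).symm.trans
    (Equiv.piCongrRight (fun _ => jn m m'))

theorem jn'_val (t m m' : ℕ) (p : (Fin t → Fin (2 ^ m)) × (Fin t → Fin (2 ^ m'))) (i : Fin t) :
    ((jn' t m m' p i : Fin (2 ^ (m + m'))) : ℕ) = (p.2 i : ℕ) + 2 ^ m' * (p.1 i : ℕ) := rfl

theorem tow : TowStmt := by
  intro V _ _ m m'
  constructor
  · intro t G c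
    unfold av
    rw [← Equiv.sum_comp (jn' t m m'), Fintype.sum_prod_type]
    rw [← Finset.smul_sum, smul_smul]
    congr 1
    · rw [← mul_inv, ← mul_pow, pow_add]
    · apply Finset.sum_congr rfl
      intro r _
      apply Finset.sum_congr rfl
      intro r' _
      congr 1
      funext i
      unfold dt
      rw [jn'_val]
      push_cast
      ring
  · intro g j
    unfold av1
    rw [← Equiv.sum_comp (jn m m'), Fintype.sum_prod_type]
    rw [← Finset.smul_sum, smul_smul]
    congr 1
    · rw [← mul_inv, pow_add]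
    · apply Finset.sum_congr rfl
      intro r _
      apply Finset.sum_congr rfl
      intro r' _
      congr 1
      rw [jn_val]
      push_cast
      ring

end Pool.Agent.BC.H20
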